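import Pool.Agent.J4H50.YM.Stm

set_option autoImplicit false

/-! # Project YM, (M4): the zeta function of a point of the plane is divisible by `L - 1` -/

namespace Pool.Agent.J4H97.YM

open Pool.Agent.W574.MO Pool.Agent.J4H50.YO Pool.Agent.J4H50.YM
open PowerSeries (C X)

theorem dvd_mf {M : Type} [CommRing M] (L : Mˣ) {a : ℕ} (ha : 1 ≤ a) (n : ℕ) :
    C ((L : M) - 1) ∣ mf L a n := by
  rw [mf_pos L ha, mul_assoc]
  exact Dvd.intro _ rfl

theorem dvd_red {M : Type} [CommRing M] (L : Mˣ) {h : MvPolynomial (Fin 2) ℂ}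
    {a0 n0 a1 n1 : ℕ} {Z : PowerSeries M} (hZ : RedZeta (mf L) (C (L : M)) h a0 n0 a1 n1 Z) :
    (1 ≤ a0 ∨ 1 ≤ a1 ∨ MvPolynomial.constantCoeff h = 0) → C ((L : M) - 1) ∣ Z := by
  induction hZ with
  | unit h a₀ n₀ a₁ n₁ hh =>
    rintro (h1 | h1 | h1)
    · exact Dvd.dvd.mul_right (dvd_mf L h1 _) _
    · exact Dvd.dvd.mul_left (dvd_mf L h1 _) _
    · exact absurd h1 hh
  | curveV h a₀ n₀ h0 h1 => exact fun _ => Dvd.dvd.mul_left (dvd_mf L le_rfl _) _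
  | curveU h a₁ n₁ h0 h1 => exact fun _ => Dvd.dvd.mul_left (dvd_mf L le_rfl _) _
  | blowup h a₀ n₀ a₁ n₁ m hm hc hI hhc hhI S h0S hS Zc ZI h0 hcS hZI ih0 ihc ihI =>
    intro _
    have hpos : 1 ≤ a₀ + a₁ + m := by omega
    refine dvd_add (dvd_add (ihI (Or.inr (Or.inl hpos))) (Finset.dvd_sum fun c hcs => ?_))
      (Dvd.dvd.mul_left (dvd_mf L hpos _) _)
    by_cases h00 : c = 0
    · rw [h00]
      exact ih0 (Or.inl hpos)
    · exact ihc c hcs h00 (Or.inl hpos)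

/-- (M4) -/
theorem t_M4 : S_M4 := by
  intro M _ L h a0 n0 a1 n1 Z hZ h1
  exact dvd_red L hZ h1

end Pool.Agent.J4H97.YM
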