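import Pool.Agent.J4H50.YM.Stm

set_option autoImplicit false

/-! # Project YM, (M7): semi-weighted-homogeneous germs -/

namespace Pool.Agent.J4H97.YM

open Pool.Agent.W574.MO Pool.Agent.J4H50.YM
open PowerSeries (C X coeff coeff_mk coeff_C_mul)

section Mem

variable {M : Type} [CommRing M]

theorem mem_of_bd {L : Mˣ} {K : ℕ → ℕ → Prop} {f : PowerSeries M} (N : ℕ)
    (h : ∀ e, N ≤ e → coeff e f = 0) : f ∈ DenRing L K := by
  refine Subring.subset_closure (Or.inl ⟨PowerSeries.trunc N f, ?_⟩)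
  ext e
  rw [Polynomial.coeff_coe, PowerSeries.coeff_trunc]
  split_ifs with he
  · rfl
  · exact (h e (not_lt.1 he)).symm

theorem cqm (L : Mˣ) (a n : ℕ) (f : PowerSeries M) (m : ℕ) : coeff m (qq L a n * f)
    = if a ≤ m then ((L⁻¹ ^ n : Mˣ) : M) * coeff (m - a) f else 0 := by
  rw [qq, mul_assoc, coeff_C_mul, PowerSeries.coeff_X_pow_mul']
  split_ifs
  · rfl
  · rw [mul_zero]

theorem X_cancel {f g : PowerSeries M} (h : (1 - X) * f = (1 - X) * g) : f = g := by
  have h1 : (PowerSeries.mk fun _ => (1 : M)) * (1 - X) = 1 := PowerSeries.mk_one_mul_one_sub_eq_one M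
  have h2 : (PowerSeries.mk fun _ => (1 : M)) * ((1 - X) * f) =
      (PowerSeries.mk fun _ => (1 : M)) * ((1 - X) * g) := by rw [h]
  rwa [← mul_assoc, ← mul_assoc, h1, one_mul, one_mul] at h2

theorem vol_eq (Z : PowerSeries M) : (1 - X) * vol Z = 1 - Z := by
  have h1 : (PowerSeries.mk fun _ => (1 : M)) * (1 - X) = 1 := PowerSeries.mk_one_mul_one_sub_eq_one M
  rw [vol]
  linear_combination (1 - Z) * h1

section Swh

variable {σ : Type} [Fintype σ]

theorem wt_add (w : σ → ℕ) {D : ℕ} (hD : 0 < D) (m : ℕ) :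
    ∑ i, (m + D) * w i / D = ∑ i, m * w i / D + ∑ i, w i := by
  rw [← Finset.sum_add_distrib]
  refine Finset.sum_congr rfl fun i _ => ?_
  rw [Nat.add_mul, Nat.add_mul_div_left _ _ hD]

theorem swA_mem (L : Mˣ) (w : σ → ℕ) {D : ℕ} (hD : 0 < D) (hW : 1 ≤ ∑ i, w i)
    (po : Finset σ → M) {K : ℕ → ℕ → Prop} (hK : K D (∑ i, w i)) :
    swA L w D po ∈ DenRing L K := by
  have h1 : (1 - qq L D (∑ i, w i)) * swA L w D po ∈ DenRing L K := by
    refine mem_of_bd (D + 1) fun e he => ?_
    rw [sub_mul, one_mul, map_sub, cqm, if_pos (by omega)]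
    obtain ⟨k, rfl⟩ : ∃ k, e = k + D := ⟨e - D, by omega⟩
    rw [Nat.add_sub_cancel, swA, coeff_mk, coeff_mk, if_neg (by omega), if_neg (by omega),
      wt_add w hD, pow_add, Units.val_mul]
    have h2 : (Finset.univ.filter fun i => D ∣ (k + D) * w i)
        = Finset.univ.filter fun i => D ∣ k * w i := by
      refine Finset.filter_congr fun i _ => ?_
      rw [Nat.add_mul]
      exact (Nat.dvd_add_left (dvd_mul_right D (w i)))
    rw [h2]
    ring
  have h3 : swA L w D po = geo L D (∑ i, w i)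
      * ((1 - qq L D (∑ i, w i)) * swA L w D po) := by
    linear_combination (-swA L w D po) * geo_mul L hD (∑ i, w i)
  rw [h3]
  exact Subring.mul_mem _ (geo_mem hD hW hK) h1

theorem swV_mem (L : Mˣ) (w : σ → ℕ) (hw : ∀ i, 0 < w i) {D : ℕ} (hD : 0 < D)
    (hW : 1 ≤ ∑ i, w i) {K : ℕ → ℕ → Prop} (hK : K D (∑ i, w i)) :
    swV L w D ∈ DenRing L K := by
  have h1 : (1 - qq L D (∑ i, w i)) * swV L w D ∈ DenRing L K := by
    refine mem_of_bd D fun e he => ?_
    rw [sub_mul, one_mul, map_sub, cqm, if_pos he]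
    obtain ⟨k, rfl⟩ : ∃ k, e = k + D := ⟨e - D, by omega⟩
    rw [Nat.add_sub_cancel, swV, coeff_mk, coeff_mk]
    have h2 : ∑ i, ((k + D + 1) * w i - 1) / D = ∑ i, ((k + 1) * w i - 1) / D + ∑ i, w i := by
      rw [← Finset.sum_add_distrib]
      refine Finset.sum_congr rfl fun i _ => ?_
      have h3 : (k + D + 1) * w i - 1 = ((k + 1) * w i - 1) + D * w i := by
        have h4 : 1 ≤ (k + 1) * w i := Nat.mul_pos (Nat.succ_pos k) (hw i)
        have h5 : (k + D + 1) * w i = (k + 1) * w i + D * w i := by ring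
        omega
      rw [h3, Nat.add_mul_div_left _ _ hD]
    rw [h2, pow_add, Units.val_mul]
    ring
  have h3 : swV L w D = geo L D (∑ i, w i)
      * ((1 - qq L D (∑ i, w i)) * swV L w D) := by
    linear_combination (-swV L w D) * geo_mul L hD (∑ i, w i)
  rw [h3]
  exact Subring.mul_mem _ (geo_mem hD hW hK) h1

end Swh

end Mem

/-- (M7) -/
theorem t_M7 : S_M7 := by
  intro M _ L σ _ _ w D hw hD po K hK
  have hW : 1 ≤ ∑ i, w i := Finset.sum_pos (fun i _ => hw i) Finset.univ_nonempty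
  have hA := swA_mem L w hD hW po hK
  have hV := swV_mem L w hw hD hW hK
  set A := swA L w D po with hAd
  set V := swV L w D with hVd
  set B := 1 - (1 - X) * V - A with hB
  have hBK : B ∈ DenRing L K :=
    Subring.sub_mem _ (Subring.sub_mem _ (Subring.one_mem _) (Subring.mul_mem _
      (Subring.sub_mem _ (Subring.one_mem _) X_mem) hV)) hA
  have h4 := geo_mul L (le_refl 1) 1
  have h5 : C (L : M) * qq L 1 1 = X := by
    rw [qq, ← mul_assoc, ← map_mul, pow_one, pow_one, Units.mul_inv, map_one, one_mul]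
  have hz : swZM L w D po = A + B * mf L 1 1 := by rw [swZM]
  have hC : C ((L : M) - 1) = C (L : M) - 1 := by rw [map_sub, map_one]
  refine ⟨B * (qq L 1 1 * geo L 1 1), A, ?_, hA, ?_, ?_⟩
  · rw [hz, mf_pos L le_rfl]
    ring
  · have e1 : (1 - qq L 1 1) * (B * (qq L 1 1 * geo L 1 1)) = qq L 1 1 * B := by
      linear_combination (B * qq L 1 1) * h4
    rw [e1]
    exact Subring.mul_mem _ (qq_mem _ _) hBK
  · have e2 : vol (swZM L w D po) - B * (qq L 1 1 * geo L 1 1) = V + B := by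
      apply X_cancel
      have h6 := vol_eq (swZM L w D po)
      have h7 : swZM L w D po = A + (C (L : M) - 1) * (B * (qq L 1 1 * geo L 1 1)) := by
        rw [hz, mf_pos L le_rfl, hC]
        ring
      linear_combination h6 - h7 - (C (L : M) * qq L 1 1 * B) * h4 - (B + B * qq L 1 1 * geo L 1 1 ) * h5 - hB
    rw [e2]
    exact Subring.add_mem _ hV hBK

end Pool.Agent.J4H97.YM
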